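import Pool.Agent.Zk54.Main
import Pool.Agent.Zk54.Near

set_option autoImplicit false

/-!
# MP_eba1ef_gt: convex bodies in three-space with an affine symmetry

Let `K` be a convex body in `ℝ³` with an affine symmetry `g` (so `g K = K`) which is neither the
identity nor an involution reversing the orientation. Then `K` is covered by `8` translates of its
interior, as conjectured by Levi, Hadwiger, Gohberg and Markus. The same holds, with one `ε > 0` for
all bodies `L` with such a symmetry, for every set `K` with `L ⊆ h K ⊆ c + (1 + ε) L` for some
affine automorphism `h` (so for all bodies in a uniform neighbourhood, in the Banach-Mazur distance,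
of the class of bodies with such a symmetry).

The starting file `RotationOrderThree` treats the case that `g` preserves the orientation and
`g ∘ g ≠ id`. The new case is the half-turn: up to an affine change of coordinates `K` is invariant
under `(x, y, z) ↦ (-x, -y, z)`. (If `g` reverses the orientation and `g ∘ g ≠ id`, then `g ∘ g` is
a symmetry which preserves the orientation.)

The proof for half-turns. Let `M` be the projection of `K` to the `(x, y)`-plane, a centrally
symmetric plane body. A point of `K` over the interior of `M` is illuminated by a vertical
direction. A contact point is a point of `K` over the boundary of `M`; let `a ≤ b` be the lowest and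
the highest level `z` of a contact point.

* Case 1: some face of `K`, cut out by a vertical supporting plane, reaches both levels `a` and `b`
  and is not a segment joining points over different positions. If the face is a vertical segment,
  directions along the two natural axes suffice. If it is two-dimensional, directions almost parallel
  to the face are combined with directions towards the axis from its corners.
* Case 2: otherwise let `±P`, `±Q` be contact points of levels `a`, `b`; in suitable coordinates they
  are `(±1, 0, 0)` and `(0, ±1, 1)`. The four horizontal directions of slope `±1` illuminate all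
  points of level strictly between `0` and `1`. The other four directions depend on how `P` and `Q`
  are illuminated in their sections: vertical directions, `(0, ∓1, -σ)`, `(∓1, 0, t)`, and in some
  cases the slopes `±1` are replaced by other ones.

The uniform `ε` comes from a compactness argument: put the bodies `L` in a common position (they
contain the standard simplex and lie in the cube), replace `g` by an iterate `g^(2^k)` whose linear
part is at distance at least `1/2` from the identity, and pass to the limit.
-/

namespace Pool.Agent.Results.MP_eba1ef_gt.AffineSymmetriesOfSpace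

/-- three-dimensional Euclidean space -/
abbrev E3 : Type := EuclideanSpace ℝ (Fin 3)

/-- the affine self-map `x ↦ M x + b` of `ℝ³` -/
noncomputable def aff (M : Matrix (Fin 3) (Fin 3) ℝ) (b x : E3) : E3 :=
  WithLp.toLp 2 (M.mulVec (WithLp.ofLp x)) + b

/-- `L` has an affine symmetry which is neither the identity nor an involution reversing the
orientation. -/
def Symmetric (L : Set E3) : Prop :=
  ∃ (M : Matrix (Fin 3) (Fin 3) ℝ) (b : E3), aff M b '' L = L ∧
    ((0 < M.det ∧ ∃ x, aff M b x ≠ x) ∨ ∃ x, aff M b (aff M b x) ≠ x)

/-- There is an absolute constant `ε > 0` such that, for every convex body `L` in `ℝ³` with an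
affine symmetry which is neither the identity nor an involution reversing the orientation, every
set `K` with `L ⊆ h K ⊆ c + (1 + ε) L` for some affine automorphism `h` and some point `c` (for
instance `K = L`) is covered by at most eight translates of its interior. -/
theorem result : ∃ ε : ℝ, 0 < ε ∧ ∀ L : Set E3, Convex ℝ L → IsCompact L →
    (interior L).Nonempty → Symmetric L →
    ∀ K : Set E3, (∃ (h : E3 ≃ᵃ[ℝ] E3) (c : E3), L ⊆ h '' K ∧
      h '' K ⊆ (fun x => c + (1 + ε) • x) '' L) →
    ∃ T : Finset E3, T.card ≤ 2 ^ 3 ∧ K ⊆ ⋃ t ∈ T, (fun x => t + x) '' interior K := by
  obtain ⟨ε, hε, h⟩ := Pool.Agent.Zk54.uniform_near fun L hL hc hi g hg hdet h1 =>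
    Pool.Agent.Zk54.cov_orientation Pool.Agent.Zk54.HB.cov (by simp) hL hc hi g hg hdet h1
  refine ⟨ε, hε, fun L hL hc hi ⟨M, b, hg, hs⟩ K hK => ?_⟩
  let g : E3 →ᵃ[ℝ] E3 :=
    { toFun := aff M b
      linear := Matrix.toEuclideanLin M
      map_vadd' := fun p v => by
        simp only [aff, vadd_eq_add, Matrix.toLpLin_apply]
        rw [WithLp.ofLp_add, Matrix.mulVec_add, WithLp.toLp_add]
        abel }
  have hgf : ∀ x, g x = aff M b x := fun x => rfl
  have hdet : LinearMap.det g.linear = M.det := by
    change LinearMap.det (Matrix.toLin (PiLp.basisFun 2 ℝ (Fin 3)) (PiLp.basisFun 2 ℝ (Fin 3)) M) =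
      M.det
    rw [LinearMap.det_toLin]
  have hg' : g '' L = L := hg
  rcases hs with ⟨h1, h2⟩ | h4
  · exact h L hL hc hi g hg' (by rw [hdet]; exact h1) h2 K hK
  · refine h L hL hc hi (g.comp g) ?_ ?_ h4 K hK
    · have : (g.comp g : E3 → E3) = g ∘ g := rfl
      rw [this, Set.image_comp, hg', hg']
    · have h5 := Pool.Agent.W867.Cov3.det_ne_zero hi g hg'
      have : (g.comp g).linear = g.linear * g.linear := rfl
      rw [this, map_mul]
      exact mul_self_pos.2 h5

end Pool.Agent.Results.MP_eba1ef_gt.AffineSymmetriesOfSpace
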