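import Mathlib
import Pool.Agent.Zk58.SS.GapUnc

set_option autoImplicit false

/-!
# MP_eba1ef_gt: nested supports

A convex body `K` in `ℝ^n` which is symmetric about the coordinate hyperplanes has NESTED SUPPORTS
if, for every point `x` of `K` and every outer normal `w` of `K` at `x`, one of the sets
`supp x = {i : x i ≠ 0}` and `supp w` contains the other one.

1. Let `K` have nested supports. Then `c(K) ≤ 2 ^ n`. If `n ≥ 3` and `K` is not a box then even
`c(K) ≤ 3 * 2 ^ (n - 2)`; for boxes `c(K) = 2 ^ n`. The bound `3 * 2 ^ (n - 2)` is sharp in every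
dimension: it is attained by the product of a disc and a cube, which is in the class. So for this
class we have the conjecture of Levi, Hadwiger, Gohberg and Markus, its equality case, and also the
conjectured second value `3 * 2 ^ (n - 2)` (known for zonoids and belt bodies: Boltyanski, Soltan,
Martini). This seems to be new also for the bodies with all symmetries of the cube.
2. The class of these bodies contains the boxes, the bodies which are invariant under all
permutations of the coordinates (unit balls of symmetric norms), and the strictly monotone bodies.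
It is closed under intersections, Minkowski sums and polarity. So 1. is proved, for all
`n`, for instance for the intersection of a box with the sum of a permutation-invariant body and a
strictly monotone one.
3. Sums of arbitrary convex bodies. Let `C_j ⊆ ℝ^(d_j)` be convex bodies with `0` in the interior
(no symmetry is assumed), with gauges `g_j`, and let `M ⊆ ℝ^k` be a closed convex solid
neighbourhood of `0` with nested supports (in the orthant of the nonnegative vectors). Then
`K = {x : (g_1 (x_1), …, g_k (x_k)) ∈ M}` satisfies `c(K) ≤ ∏ N_j` if `c(C_j) ≤ N_j`, `N_j ≥ 2`; and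
`c(K) ≤ ∏ N_j - 2 ^ (k - 2)` if `k ≥ 3` and `M` has no largest point. This applies to all
permutation-invariant `M`: the sums with respect to the symmetric norms preserve the conjecture.
4. Let the index set have a chain of equivalence relations `r 0 ≤ r 1 ≤ … ≤ r h`, `r 0` being the
equality, such that `M` has sufficiently many symmetries which permute the classes of `r t` in the
same class of `r (t + 1)`, and suppose that `r h` satisfies the Kraft inequality
`∑_A ∏_{j ∈ A} 1 / N_j ≤ 1`, `A` running through the classes of `r h`. Then `c(K) ≤ ∏ N_j`. The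
symmetries can be replaced by a uniform inequality for the normals of `M`. For
example, if `M` is invariant under all permutations of the coordinates in each class of a partition
such that `∑_A ∏_{j ∈ A} 1 / N_j ≤ 1`.
5. In particular an unconditional body in `ℝ^n` with such symmetries satisfies `c(K) ≤ 2 ^ n` if
`∑_A 2 ^ (-|A|) ≤ 1`.

Proof. Let `c` be a tuple of indices (`c_j < N_j`). We move in the direction of
`(α_j(c) v_(c_j))_j`, where `v_c`, `c < N_j`, are the directions which illuminate `C_j` and
`α_j(c) > 0` are weights. A coordinate `j` with `x_j ≠ 0` wants one special value of `c_j`. The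
coordinates with `x_j = 0` get worse in any direction, and one
needs weights for which this is compensated. In the first part of 3. only one weight is large, and
all others are `1`. If for all large values of this weight there is a point `x` which is not
illuminated, then we pass to the limit of these points and of their normals. If the special
coordinate is in the support of the limit point, and if `c_j` is the required index for all
coordinates of this support, then the limit normal `w` has `w_i = 0` for the special coordinate `i`;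
so by nestedness `supp w ⊆ supp x`, and there is nothing to compensate for. It remains to choose for
each `c` the special coordinate `f(c)`, such that every nonempty partial tuple, with domain `Q`, has
an extension `c` with `f(c) ∈ Q`.

For the second value, let `A` be a minimal set of coordinates such that the section of `K` by
`ℝ^A` is not a box. A quarter of the tuples is left out (those with `c_j ≤ 1` and sign pattern in a
set `O`, `|O| = 2 ^ (k - 2)`, without two elements which differ in one coordinate of `A` only). If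
the required tuple of a point `x` is left out then, for each `j ∈ A`, one uses the tuple in which
the `j`-th index is changed; there `j` and all other coordinates with this role have small weights
`δ`. If none of these directions is good, for arbitrarily small `δ`, one gets in the limit, for each
`j ∈ A`, a normal supported by a proper subset of `A` which contains `j`; because the section by this
subset is a box, the `j`-th coordinate of `x` is maximal. This holds for all `j ∈ A`, so the section
by `ℝ^A` is a box, a contradiction. The special coordinates must not be among those with small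
weights. The existence of such labellings of three quarters of the vertices of the cube is proved
by induction on the number of coordinates.

In 4. the weights are powers of a small number; chains of partial tuples, constructed with Hall's
theorem, define their order.
-/

namespace Pool.Agent.Results.MP_eba1ef_gt.NestedSupports

open Pool.Agent.Zk58.SS
open scoped Pointwise Classical

/-- The Euclidean space `ℝ^d`. -/
abbrev Eu (d : ℕ) : Type := EuclideanSpace ℝ (Fin d)

/-- `K` is covered by at most `N` translates of its interior: `c(K) ≤ N`. -/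
def Covered {V : Type} [TopologicalSpace V] [Add V] (N : ℕ) (K : Set V) : Prop :=
  ∃ T : Finset V, T.card ≤ N ∧ K ⊆ ⋃ t ∈ T, (fun x => t + x) '' interior K

/-- `K` is an unconditional body in `ℝ^n`: convex, compact, with interior points, and symmetric
about all coordinate hyperplanes. -/
def IsUncBody {n : ℕ} (K : Set (Eu n)) : Prop :=
  (Convex ℝ K ∧ IsCompact K ∧ (interior K).Nonempty) ∧
    ∀ x ∈ K, ∀ y : Eu n, (∀ i, |y i| = |x i|) → y ∈ K

/-- `w` is an outer normal of `K` at `x`. -/
def IsNormal {n : ℕ} (K : Set (Eu n)) (x w : Eu n) : Prop :=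
  ∀ y ∈ K, inner ℝ w y ≤ inner ℝ w x

/-- `K` has nested supports: for every point `x` of `K` and every outer normal `w` at `x`,
`supp x ⊆ supp w` or `supp w ⊆ supp x`. -/
def Nested {n : ℕ} (K : Set (Eu n)) : Prop :=
  ∀ x ∈ K, ∀ w, IsNormal K x w → (∀ i, x i ≠ 0 → w i ≠ 0) ∨ (∀ i, w i ≠ 0 → x i ≠ 0)

/-- `K` is a box, with centre `0` and with sides parallel to the axes. -/
def IsBox {n : ℕ} (K : Set (Eu n)) : Prop :=
  ∃ h : Fin n → ℝ, K = {x : Eu n | ∀ i, |x i| ≤ h i}

/-- `K` is invariant under all permutations of the coordinates. -/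
def IsPermInvariant {n : ℕ} (K : Set (Eu n)) : Prop :=
  ∀ σ : Equiv.Perm (Fin n), ∀ x ∈ K, (WithLp.toLp 2 fun i => x (σ i) : Eu n) ∈ K

/-- `K` is strictly monotone: if `x ∈ K`, `|y i| ≤ |x i|` for all `i` and `|y i| < |x i|` for some
`i` then `y` is in the interior of `K`. -/
def IsStrictlyMonotone {n : ℕ} (K : Set (Eu n)) : Prop :=
  ∀ x ∈ K, ∀ y : Eu n, (∀ i, |y i| ≤ |x i|) → (∃ i, |y i| < |x i|) → y ∈ interior K

/-- The polar set of `K`. -/
def polar {n : ℕ} (K : Set (Eu n)) : Set (Eu n) := {w | ∀ x ∈ K, inner ℝ w x ≤ 1}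

/-- `v` is an outer normal of `M ⊆ ℝ^k` at `X`. -/
def IsNormalVector {k : ℕ} (M : Set (Fin k → ℝ)) (X v : Fin k → ℝ) : Prop :=
  ∀ Y ∈ M, ∑ j, v j * Y j ≤ ∑ j, v j * X j

/-- The standing assumptions for sums: the sets `C j` are convex bodies in `ℝ^(d j)`, `d j ≥ 1`, with
`0` in the interior, covered by at most `N j` translates of their interiors, `N j ≥ 2`; the set `M`
is convex and closed, `0` is in its interior and it is solid (if `X ∈ M` and `Y i` is between `0` and
`X i` for all `i`, then `Y ∈ M`); the set `K` consists of the `x` such that the vector of the gauges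
of the `x j` with respect to `C j` is in `M`, and it is bounded. -/
structure IsSum {k : ℕ} (d : Fin k → ℕ) (C : ∀ j, Set (Eu (d j))) (N : Fin k → ℕ)
    (M : Set (Fin k → ℝ)) (K : Set (∀ j, Eu (d j))) : Prop where
  pos : ∀ j, 1 ≤ d j
  convex : ∀ j, Convex ℝ (C j)
  compact : ∀ j, IsCompact (C j)
  zero_mem : ∀ j, 0 ∈ interior (C j)
  two_le : ∀ j, 2 ≤ N j
  covered : ∀ j, Covered (N j) (C j)
  convexM : Convex ℝ M
  closedM : IsClosed M
  zero_memM : 0 ∈ interior M
  solidM : ∀ X ∈ M, ∀ Y : Fin k → ℝ, (∀ i, Y i ∈ Set.uIcc 0 (X i)) → Y ∈ M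
  eq : K = {x | (fun j => gauge (C j) (x j)) ∈ M}
  bounded : Bornology.IsBounded K

/-- **Main theorem.** -/
theorem result :
    -- 1. Unconditional bodies with nested supports.
    (∀ (n : ℕ) (K : Set (Eu n)), IsUncBody K → Nested K → Covered (2 ^ n) K ∧
      (3 ≤ n → ¬ IsBox K → Covered (3 * 2 ^ (n - 2)) K)) ∧
    -- The values `2 ^ n` and `3 * 2 ^ (n - 2)` are attained.
    (∀ (n : ℕ) (K : Set (Eu n)), IsUncBody K → IsBox K → ∀ N, Covered N K → 2 ^ n ≤ N) ∧
    (∀ n : ℕ, 3 ≤ n → ∃ K : Set (Eu n), IsUncBody K ∧ Nested K ∧ ¬ IsBox K ∧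
      ∀ N, Covered N K → 3 * 2 ^ (n - 2) ≤ N) ∧
    -- 2. The class of these bodies.
    (∀ (n : ℕ) (K : Set (Eu n)), IsUncBody K →
      (IsBox K ∨ IsPermInvariant K ∨ IsStrictlyMonotone K → Nested K) ∧
      (IsUncBody (polar K) ∧ (Nested K → Nested (polar K))) ∧
      ∀ L : Set (Eu n), IsUncBody L →
        (IsUncBody (K ∩ L) ∧ IsUncBody (K + L)) ∧
        (Nested K → Nested L → Nested (K ∩ L) ∧ Nested (K + L))) ∧
    -- 3. Sums of arbitrary convex bodies.
    (∀ (k : ℕ) (d : Fin k → ℕ) (C : ∀ j, Set (Eu (d j))) (N : Fin k → ℕ) (M : Set (Fin k → ℝ))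
      (K : Set (∀ j, Eu (d j))), IsSum d C N M K →
      ((∀ X ∈ M, (∀ j, 0 ≤ X j) → ∀ v, IsNormalVector M X v →
        (∀ i, X i ≠ 0 → v i ≠ 0) ∨ (∀ i, 0 < v i → X i ≠ 0)) ∨
        (∀ σ : Equiv.Perm (Fin k), ∀ X ∈ M, (fun j => X (σ j)) ∈ M)) →
      Covered (∏ j, N j) K ∧
      (3 ≤ k → (¬ ∃ h ∈ M, ∀ X ∈ M, ∀ i, X i ≤ h i) → Covered (∏ j, N j - 2 ^ (k - 2)) K)) ∧
    -- 4. Blocks of coordinates, in several levels, and the Kraft inequality.
    (∀ (k : ℕ) (d : Fin k → ℕ) (C : ∀ j, Set (Eu (d j))) (N : Fin k → ℕ) (M : Set (Fin k → ℝ))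
      (K : Set (∀ j, Eu (d j))), IsSum d C N M K →
      ∀ (h : ℕ) (r : ℕ → Setoid (Fin k)), r 0 = ⊥ → (∀ t < h, r t ≤ r (t + 1)) →
      (∑ A : Quotient (r h), ∏ j with Quotient.mk (r h) j = A, (1 : ℝ) / N j ≤ 1) →
      ((∀ t < h, ∀ i l, r (t + 1) i l → ¬ r t i l → ∃ σ : Equiv.Perm (Fin k),
        (∀ X ∈ M, (fun j => X (σ j)) ∈ M) ∧ σ l = i ∧ ∀ j, ¬ r t j i → ¬ r t j l → σ j = j) ∨
        (∃ c : ℝ, ∀ t < h, ∀ i l, r (t + 1) i l → ∀ X ∈ M, (∀ j, 0 ≤ X j) → X i ≠ 0 →
          (∀ j, r t l j → X j = 0) → ∀ v, IsNormalVector M X v →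
            v l ≤ c * ∑ j with r t j i, max (v j) 0)) →
      Covered (∏ j, N j) K) ∧
    -- 5. The case of unconditional bodies in `ℝ^n`.
    (∀ (n : ℕ) (K : Set (Eu n)), IsUncBody K →
      ∀ (h : ℕ) (r : ℕ → Setoid (Fin n)), r 0 = ⊥ → (∀ t < h, r t ≤ r (t + 1)) →
      (∑ A : Quotient (r h), ∏ j with Quotient.mk (r h) j = A, (1 : ℝ) / 2 ≤ 1) →
      (∀ t < h, ∀ i l, r (t + 1) i l → ¬ r t i l → ∃ σ : Equiv.Perm (Fin n),
        (∀ x ∈ K, (WithLp.toLp 2 fun j => x (σ j) : Eu n) ∈ K) ∧ σ l = i ∧
          ∀ j, ¬ r t j i → ¬ r t j l → σ j = j) →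
      Covered (2 ^ n) K) := by
  refine ⟨?_, ?_, ?_, ?_, ?_, ?_, ?_⟩
  · intro n K hK hnest
    exact ⟨unc_nested hK.1.1 hK.1.2.1 hK.1.2.2 hK.2 hnest, fun hn hbox =>
      unc_gap hn hK.1.1 hK.1.2.1 hK.1.2.2 hK.2 hnest hbox⟩
  · rintro n K hK ⟨h, hb⟩ N ⟨T, hT, hT2⟩
    exact (box_lower hK.1.1 hK.1.2.2 h hb T hT2).trans hT
  · intro n hn
    obtain ⟨K, h1, h2, h3, h4, h5⟩ := gap_sharp (n := n) (by omega)
    refine ⟨K, ⟨h1, h2⟩, h3, h4, ?_⟩
    rintro N ⟨T, hT, hT2⟩
    exact (h5 T hT2).trans hT
  · intro n K hK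
    refine ⟨?_, ⟨body_polar hK.1.1 hK.1.2.1 hK.1.2.2 hK.2, fun h => nest_polar hK.1.1 hK.1.2.1
      (interior_subset (zero_mem_interior hK.1.1 hK.1.2.2 hK.2)) h⟩, ?_⟩
    · rintro (⟨h, hb⟩ | h | h)
      · exact nest_box hK.1.1 hK.1.2.2 h hb
      · exact nest_perm hK.1.1 hK.1.2.1 hK.1.2.2 hK.2 h
      · exact nest_mono h
    · intro L hL
      refine ⟨⟨body_inter hK.1.1 hK.1.2.1 hK.1.2.2 hK.2 hL.1.1 hL.1.2.1 hL.1.2.2 hL.2,
        body_add hK.1.1 hK.1.2.1 hK.1.2.2 hK.2 hL.1.1 hL.1.2.1 hL.1.2.2 hL.2⟩, fun h1 h2 => ?_⟩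
      exact ⟨nest_inter hK.1.1 hK.1.2.2 hK.2 hL.1.1 hL.1.2.2 hL.2 h1 h2,
        nest_add hK.2 hL.2 h1 h2⟩
  · intro k d C N M K hS hnest
    have hnest' : ∀ X ∈ M, (∀ j, 0 ≤ X j) → ∀ v, Nor M X v →
        (∀ i, X i ≠ 0 → v i ≠ 0) ∨ (∀ i, 0 < v i → X i ≠ 0) := by
      rcases hnest with h | h
      · exact h
      · exact fun X hX hX0 v hv => nested_of_perm hS.solidM h hX hX0 hv
    refine ⟨nested C hS.convex hS.compact hS.zero_mem N hS.two_le hS.covered M hS.convexM
      hS.closedM hS.zero_memM hS.solidM K hS.eq hS.bounded hnest', fun hk hbox => ?_⟩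
    have hnt : ∀ j, Nontrivial (Eu (d j)) := fun j => by
      have : Nonempty (Fin (d j)) := ⟨⟨0, hS.pos j⟩⟩
      infer_instance
    obtain ⟨T, hT, hT2⟩ := gap (by rwa [Fintype.card_fin]) C hS.convex hS.compact hS.zero_mem N
      hS.two_le hS.covered M hS.convexM hS.closedM hS.zero_memM hS.solidM K hS.eq hS.bounded
      hnest' hbox
    rw [Fintype.card_fin] at hT
    exact ⟨T, hT, hT2⟩
  · intro k d C N M K hS h r hr0 hr hk hdom
    rcases hdom with hsym | ⟨c, hdom⟩
    · refine (main C hS.convex hS.compact hS.zero_mem N hS.two_le hS.covered M hS.convexM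
        hS.closedM hS.zero_memM hS.solidM K hS.eq hS.bounded r h hr0 hr 1 ?_ hk).2.2.2
      intro t ht i l hil X hX hX0 hi hl v hv
      exact dom_of_sym hS.solidM (hr t ht) (hsym t ht) hil hX hX0 hi hl hv
    · exact (main C hS.convex hS.compact hS.zero_mem N hS.two_le hS.covered M hS.convexM
        hS.closedM hS.zero_memM hS.solidM K hS.eq hS.bounded r h hr0 hr c hdom hk).2.2.2
  · intro n K hK h r hr0 hr hk hsym
    obtain ⟨hc, hco, h0, hsol, hunc⟩ := fset_props hK.1.1 hK.1.2.1 hK.1.2.2 hK.2
    have h1 := (main (ι := Fin n) (E := fun _ => ℝ) (fun _ => Set.Icc (-1 : ℝ) 1)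
      (fun _ => convex_Icc _ _) (fun _ => isCompact_Icc)
      (fun _ => by rw [interior_Icc]; constructor <;> norm_num) (fun _ => 2) (fun _ => le_rfl)
      (fun _ => cover_seg) (fset K) hc hco.isClosed h0 hsol (fset K) (fset_eq hunc)
      hco.isBounded r h hr0 hr 1 (by
        intro t ht i l hil X hX hX0 hi hl v hv
        exact dom_of_sym hsol (hr t ht) (fun i l h1 h2 => by
          obtain ⟨σ, h3, h4, h5⟩ := hsym t ht i l h1 h2
          exact ⟨σ, fun X hX => h3 _ hX, h4, h5⟩) hil hX hX0 hi hl hv)
      (by simpa using hk)).2.2.2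
    refine cov_fset (P := fun a => a ≤ 2 ^ n) (fun a b hab hb => hab.trans hb) ?_
    obtain ⟨T, hT, hT2⟩ := h1
    refine ⟨T, ?_, hT2⟩
    rwa [Finset.prod_const, Finset.card_univ, Fintype.card_fin] at hT

end Pool.Agent.Results.MP_eba1ef_gt.NestedSupports
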