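import Mathlib
import Pool.Agent.Zk68.MatOrb

set_option autoImplicit false

/-!
# MP_eba1ef_gt: symmetric convex bodies with a fixed group of symmetries, in high dimensions

For a symmetric convex body `K` of dimension `d` the best known general bound for the number of
translates of the interior of `K` which cover `K` is the one of Rogers, of order `2^d d log d`. We
gain a factor `√d` for every dimension of the orbits of a compact group of symmetries, up to powers
of `log d`; so the bound is `o(2^d)`, and the conjecture is true in all large dimensions, if the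
orbits have dimension at least three.

1. Let `G` be a compact connected group of orthogonal maps of `V = ℝ^n` with Lie algebra `𝔤`, such
   that the orbits of all vectors `v ≠ 0` have dimension at least `r` (`dim 𝔤 v ≥ r`). There is a
   constant `C`, which depends only on `𝔤`, such that `K` is covered by
   `1 + C 2^d d^(1 - r/2) (log d)^(2r+1)` translates of its interior if `K` is any symmetric convex
   body invariant under `G`, of dimension `d ≥ 2`, in `V^k` (the space of `n × k` matrices), for any
   `k`, or in a linear subspace `E` of `V^k`: so in any space on which `G` acts with irreducible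
   parts which occur in `V`. The group is fixed, the dimension `d` is not. Examples: `r = 1` for the
   complex numbers of modulus `1`, so `C 2^d √d (log d)^3` for the unit balls of all complex norms;
   `r = 3` for the unit quaternions, so `o(2^d)` for all quaternionic norms; `r = m - 1` for `SO(m)`
   in `ℝ^m`; `r ≥ 3` for all representations without fixed vectors of all compact simple groups
   other than `SU(2)` and `SO(3)`, and for all representations of `SU(2)` with half-integral spins.
2. The bound is `1 + C 2^d (log d)^7 / √d` with an absolute constant `C` for the symmetric bodies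
   which are invariant under (R) `SO(m)`, in the real `m × k` matrices, `m ≥ 4`; (C) `SU(m)`, in the
   complex `m × k` matrices, `m ≥ 2`; (H) the unit quaternions, in `ℍ^n`.

The same bounds are true for all sets `K'` with `K ⊆ K' ⊆ v + (1 + 1/d) K`, for example for all
convex bodies `K'` that near to `K`, most of which have no symmetries.

The starting file `CompactLieSymmetries` treats groups which grow with the dimension (for example
real matrices with `m ≥ C log (m k)`), with a different method (concentration).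

The proof. Let `|·|` be the norm with unit ball `K`, let `|x| ≤ 1`. Random translates of `K` cover
`x` with probability `p(x) = vol (K ∩ (x + K)) / vol K`, and trivially `p(x) ≥ 2^(-d)`, as
`x/2 + K/2` is in the intersection. Rogers' bound follows. Let `X` be in the Lie algebra. As
`exp X` is an isometry, `|x + X x| ≤ 1 + C |X|²`; so for `|X| ≤ c/√d` the near midpoints
`(x + X x)/2` are, together with the balls of radius `1/2 - O(1/d)` about them, in the intersection
of `K` and `x + K`: this is a family of translates of almost `K/2` with `r` parameters. Two of them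
overlap little if `p(t X x)` is small for `t` of order `log² d / d`, for the `X` of an
`r`-dimensional space; then `p(x) ≥ 2^(-d) d^(r/2) / polylog d`. If this fails for all
`r`-dimensional spaces then `p(t X x)` is not small for the `X` in a subspace of `𝔤` of codimension
less than `r`; the identity is `∑ B_j X_j` with such `X_j` and with combinations `B_j` of elements
of the group (as `-∑ X_j²` is positive definite, by the hypothesis on the orbits), and
`1 - p(v + w) ≤ (1 - p(v)) + (1 - p(w))` and the logarithmic concavity of `p` (Prékopa and Leindler)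
show that `p(t x)` is not small, too; in this case `p(x)` is large, since
`p(t x) ≤ (2 - t)^d p(x)`. In part 2 the matrices are cut into blocks, on which the unit
quaternions act.
-/

namespace Pool.Agent.Results.MP_eba1ef_gt.SmallSymmetryGroups

open Quaternion Module
open scoped Matrix

/-- `K` is a convex body symmetric about `0`. -/
def IsSymmetricBody {E : Type} [TopologicalSpace E] [AddCommGroup E] [Module ℝ E]
    (K : Set E) : Prop :=
  Convex ℝ K ∧ IsCompact K ∧ (interior K).Nonempty ∧ ∀ x ∈ K, -x ∈ K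

/-- Let `d` be the dimension of the space. Each set `K'` with `K ⊆ K' ⊆ v + (1 + 1/d) K` for some
`v`, for example `K' = K`, is covered by at most `1 + C 2^d d (log d)^(2r+1) / (√d)^r` translates of
its interior. -/
def FewTranslates {E : Type} [TopologicalSpace E] [AddCommGroup E] [Module ℝ E]
    (K : Set E) (r : ℕ) (C : ℝ) : Prop :=
  ∀ (K' : Set E) (v : E), K ⊆ K' →
    K' ⊆ (fun x => v + (1 + 1 / (finrank ℝ E : ℝ)) • x) '' K →
    ∃ T : Finset E, K' ⊆ ⋃ t ∈ T, (fun x => t + x) '' interior K' ∧
      (T.card : ℝ) ≤ 1 + C * 2 ^ finrank ℝ E *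
        (finrank ℝ E * Real.log (finrank ℝ E) ^ (2 * r + 1) / √(finrank ℝ E) ^ r)

/-- The matrices in the linear space `𝔤` are skew-symmetric, and `dim 𝔤 v ≥ r` for all vectors
`v ≠ 0`. -/
def HasOrbits {n : ℕ} (𝔤 : Submodule ℝ (Matrix (Fin n) (Fin n) ℝ)) (r : ℕ) : Prop :=
  (∀ X ∈ 𝔤, Xᵀ = -X) ∧
  ∀ v : Fin n → ℝ, v ≠ 0 → r ≤ finrank ℝ (Submodule.span ℝ {w | ∃ X ∈ 𝔤, X *ᵥ v = w})

/-- The space `E` is embedded by `ι` in the space of `n × k` matrices, and the subset `K` of `E` is
invariant under the multiplication by `exp X`, for all `X ∈ 𝔤`. -/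
def ExpInvariant {n k : ℕ} (𝔤 : Submodule ℝ (Matrix (Fin n) (Fin n) ℝ)) {E : Type}
    [AddCommGroup E] [Module ℝ E] (ι : E →ₗ[ℝ] Matrix (Fin n) (Fin k) ℝ) (K : Set E) : Prop :=
  Function.Injective ι ∧ ∀ X ∈ 𝔤, ∀ x ∈ K, ∃ y ∈ K, ι y = NormedSpace.exp X * ι x

/-- `K` is a set of real `m × k` matrices with `U K ⊆ K` for all `U ∈ SO(m)`. -/
def SOInvariant {m k : ℕ} (K : Set (Matrix (Fin m) (Fin k) ℝ)) : Prop :=
  ∀ U ∈ Matrix.specialOrthogonalGroup (Fin m) ℝ, ∀ x ∈ K, U * x ∈ K

/-- `K` is a set of complex `m × k` matrices with `U K ⊆ K` for all `U ∈ SU(m)`. -/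
def SUInvariant {m k : ℕ} (K : Set (Matrix (Fin m) (Fin k) ℂ)) : Prop :=
  ∀ U ∈ Matrix.specialUnitaryGroup (Fin m) ℂ, ∀ x ∈ K, U * x ∈ K

/-- `K` is a subset of `ℍ^n` with `q K ⊆ K` for all quaternions `q` of norm one. -/
def UnitInvariant {n : ℕ} (K : Set (Fin n → ℍ[ℝ])) : Prop :=
  ∀ q : ℍ[ℝ], ‖q‖ = 1 → ∀ x ∈ K, q • x ∈ K

open Pointwise in
theorem set_eq {E : Type} [TopologicalSpace E] [AddCommGroup E] [Module ℝ E] (K : Set E) (v : E)
    (c : ℝ) : (fun x => v + c • x) '' K = (fun x => v + x) '' (c • K) := by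
  rw [← Set.image_smul, Set.image_image]

theorem result :
    -- 1. compact groups with orbits of dimension at least `r`
    (∀ (n : ℕ) (𝔤 : Submodule ℝ (Matrix (Fin n) (Fin n) ℝ)) (r : ℕ), HasOrbits 𝔤 r →
      ∃ C : ℝ, ∀ (E : Type) [NormedAddCommGroup E] [NormedSpace ℝ E] [FiniteDimensional ℝ E]
        (k : ℕ) (ι : E →ₗ[ℝ] Matrix (Fin n) (Fin k) ℝ) (K : Set E), 2 ≤ finrank ℝ E →
        IsSymmetricBody K → ExpInvariant 𝔤 ι K → FewTranslates K r C) ∧
    -- 2. matrices and quaternionic spaces, with an absolute constant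
    ∃ C : ℝ,
      (∀ m k : ℕ, 4 ≤ m → 1 ≤ k → ∀ K : Set (Matrix (Fin m) (Fin k) ℝ),
        IsSymmetricBody K → SOInvariant K → FewTranslates K 3 C) ∧
      (∀ m k : ℕ, 2 ≤ m → 1 ≤ k → ∀ K : Set (Matrix (Fin m) (Fin k) ℂ),
        IsSymmetricBody K → SUInvariant K → FewTranslates K 3 C) ∧
      (∀ n : ℕ, 1 ≤ n → ∀ K : Set (Fin n → ℍ[ℝ]),
        IsSymmetricBody K → UnitInvariant K → FewTranslates K 3 C) := by
  refine ⟨?_, ?_⟩
  · rintro n 𝔤 r ⟨hskew, horb⟩
    obtain ⟨C, hC⟩ := Pool.Agent.Zk68.Q.mat_orb 𝔤 r hskew horb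
    refine ⟨C, fun E _ _ _ k ι K hd hK hinv K' v hKK' hK'K => ?_⟩
    obtain ⟨hK, hKc, hKi, hKs⟩ := hK
    rw [set_eq] at hK'K
    obtain ⟨T, hT, hTc⟩ := hC E k ι K hinv.1 hK hKc hKi hKs hd hinv.2 K' v hKK' hK'K
    exact ⟨T, hTc, hT⟩
  · obtain ⟨C, hC⟩ := Pool.Agent.Zk68.Q.big2
    have hbd : ∀ d : ℕ, 1 ≤ d → 1 + C * Pool.Agent.Zk68.Q.bd d =
        1 + C * 2 ^ d * (d * Real.log d ^ (2 * 3 + 1) / √d ^ 3) := by
      intro d hd
      have hd0 : (0 : ℝ) < d := by exact_mod_cast hd
      have h1 : √(d : ℝ) ^ 3 = d * √d := by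
        rw [pow_succ, Real.sq_sqrt hd0.le]
      have h2 : (0 : ℝ) < √d := Real.sqrt_pos.mpr hd0
      rw [Pool.Agent.Zk68.Q.bd, h1]
      field_simp
    refine ⟨C, ?_, ?_, ?_⟩
    · rintro m k hm hk K ⟨hK, hKc, hKi, hKs⟩ hU K' v hKK' hK'K
      have hfr : finrank ℝ (Matrix (Fin m) (Fin k) ℝ) = m * k := by
        rw [Module.finrank_matrix]; simp
      rw [set_eq, hfr] at hK'K
      obtain ⟨T, hT, hTc⟩ := Pool.Agent.Zk68.Q.matR2 hC m k hm hk K hK hKc hKi hKs hU K' v hKK'
        hK'K
      rw [hbd _ (by nlinarith)] at hT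
      exact ⟨T, hTc, by rw [hfr]; exact hT⟩
    · rintro m k hm hk K ⟨hK, hKc, hKi, hKs⟩ hU K' v hKK' hK'K
      have hfr : finrank ℝ (Matrix (Fin m) (Fin k) ℂ) = 2 * (m * k) := by
        rw [Module.finrank_matrix, Complex.finrank_real_complex]; simp; ring
      rw [set_eq, hfr] at hK'K
      obtain ⟨T, hT, hTc⟩ := Pool.Agent.Zk68.Q.matC2 hC m k hm hk K hK hKc hKi hKs hU K' v hKK'
        hK'K
      rw [hbd _ (by nlinarith)] at hT
      exact ⟨T, hTc, by rw [hfr]; exact hT⟩
    · rintro n hn K ⟨hK, hKc, hKi, hKs⟩ hq K' v hKK' hK'K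
      have hfr : finrank ℝ (Fin n → ℍ[ℝ]) = 4 * n := by
        rw [Module.finrank_pi_fintype]
        simp [Quaternion.finrank_eq_four, mul_comm]
      rw [set_eq, hfr] at hK'K
      obtain ⟨T, hT, hTc⟩ := Pool.Agent.Zk68.Q.quat2 hC n hn K hK hKc hKi hq K' v hKK' hK'K
      rw [hbd _ (by omega)] at hT
      exact ⟨T, hTc, by rw [hfr]; exact hT⟩

end Pool.Agent.Results.MP_eba1ef_gt.SmallSymmetryGroups
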