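import Pool.Agent.Zk84.M4.Final
import Pool.Agent.Zk76.Wt.BoundNear
import Pool.Agent.Zk76.M4T12
import Pool.Agent.Zk67.M4TE
import Pool.Agent.Zk20.M4Sharp

set_option autoImplicit false

/-!
# MP_eba1ef_gt: convex bodies of `ℝ⁴` with many affine symmetries

1. There is a number `N` such that every convex body of `ℝ⁴` with more than `N` affine symmetries, in
particular every convex body of `ℝ⁴` with infinitely many affine symmetries, is covered by `14`
translates of its interior: the conjecture of Levi, Hadwiger, Gohberg and Markus, with its equality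
clause, for these bodies (no parallelotope is among them, since the bound is less than `2⁴`).
Moreover there is one `ε > 0` such that the same is true for every convex body `K` with
`L ⊆ h K ⊆ v + (1 + ε) L` where `L` is such a body, `h` an affine automorphism and `v` a vector: all
bodies in a uniform neighbourhood of the class of bodies with many symmetries, most of which have no
symmetry at all. No central symmetry is assumed.
2. A convex body of `ℝ⁴` with infinitely many affine symmetries is in suitable affine coordinates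
invariant under all the rotations of the two coordinate planes by the angles `k t` and `t`, for some
`0 ≤ k ≤ 1`.
3. A convex body which is in suitable affine coordinates invariant under the rotations of the two
coordinate planes by the angles `a t` and `b t`, where neither `|a| = 2 |b|` nor `|b| = 2 |a|`, is
covered by `12` translates of its interior (bodies of revolution, duoprism-like bodies, unit balls of
complex norms, circular bodies, ...).
4. The number `12` in 3 is the best possible: it is attained by the product of a square and a disc.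

The proof.

* The affine symmetries of a convex body fix its centroid and preserve its inertia form, so they
  form a compact group. If it is infinite, it contains a one-parameter group; its generator is
  skew-symmetric, so in suitable coordinates `ℝ⁴ = ℂ × ℂ` the body is invariant under all the maps
  `(x₁, x₂) ↦ (e^(ikt) x₁, e^(it) x₂)`, with a real number `0 ≤ k ≤ 1`
  (`Pool.Agent.Zk76.Wt.Weights`).
* Bodies with more and more symmetries, put in a common position, converge (along a subsequence) to
  a body with infinitely many symmetries, and the property of being covered by 14 translates of the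
  interior is stable (`Pool.Agent.Zk76.Wt.Bound`, `Pool.Agent.Zk76.Wt.BoundNear`).
* `k = 0`: the body consists of discs over a plane body; a plane body other than a parallelogram is
  illuminated by three directions (`Pool.Agent.Zk67.M4L12`, `Pool.Agent.Zk76.M4L13`,
  `Pool.Agent.Zk76.M4HB`), and `3 * 3 + 3 = 12`; the parallelograms are treated by cases
  (`Pool.Agent.Zk76.M4W5`).
* `k > 0`. Scale the coordinates so that `|x₁|` and `|x₂|` have the maximum `1` on `K`. Then `K`
  contains certain discs and is invariant under rotations of the first coordinate (`k ≠ 1 / 2`, see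
  `Pool.Agent.Zk80.M3W2`, `Pool.Agent.Zk84.M3.W3p`, `Pool.Agent.Zk76.M4W6b`); for `k = 1 / 2` it
  contains the points `(z, r z²)`, `|z| ≤ 1`, with a number `0 ≤ r ≤ 1`, and for `k = 1` the gauge of
  the points `(1, e)`, `|e| = 1`, is used as a parameter (`Pool.Agent.Zk76.M4W8k`).
* A direction `-u` illuminates `x` if `u = l x + w (i k x₁, i x₂) + B (x - y) - a z` with `y, z` in
  `K`, `B ≥ 0` and `0 ≤ a < l` (`Pool.Agent.Zk76.M3W4`). For each of twenty ranges of the parameters
  there are 12 directions (14 if `k = 1 / 2`), found with a computer and with a symmetry of order 6, 4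
  or 7, such that every point of the bidisc has a certificate of this form. The certificates, for
  about 200000 boxes in the products of arcs of the unit circle with the unit disc, are checked by
  the kernel with integer arithmetic (`Pool.Agent.Zk84.M3.Check`, `Pool.Agent.Zk84.M4.Check2` and the
  data files `HA0`, ..., `NC8`).
-/

namespace Pool.Agent.Results.MP_eba1ef_gt.SymmetriesOfFourSpace

section

variable {E : Type*} [NormedAddCommGroup E] [NormedSpace ℝ E]

/-- `K` is a convex body: convex and compact, with interior points -/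
def Body (K : Set E) : Prop := Convex ℝ K ∧ IsCompact K ∧ (interior K).Nonempty

/-- `L` has more than `N` affine symmetries (for instance infinitely many) -/
def MoreSymmetriesThan (N : ℕ) (L : Set E) : Prop :=
  (N : ℕ∞) < {g : E ≃ᵃ[ℝ] E | g '' L = L}.encard

/-- `L ⊆ h K ⊆ v + (1 + ε) L` for some affine automorphism `h` and some vector `v` -/
def Near (ε : ℝ) (L K : Set E) : Prop :=
  ∃ (h : E ≃ᵃ[ℝ] E) (v : E), L ⊆ h '' K ∧ h '' K ⊆ (fun x => v + (1 + ε) • x) '' L

/-- `K` is covered by at most `m` translates of its interior -/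
def Covered (m : ℕ) (K : Set E) : Prop :=
  ∃ T : Finset E, T.card ≤ m ∧ K ⊆ ⋃ t ∈ T, (fun x => t + x) '' interior K

end

/-- the rotation of `ℝ⁴` by the angles `a t` and `b t` in the two coordinate planes -/
noncomputable def turn (a b t : ℝ) (x : EuclideanSpace ℝ (Fin 4)) : EuclideanSpace ℝ (Fin 4) :=
  !₂[Real.cos (a * t) * x 0 - Real.sin (a * t) * x 1,
    Real.sin (a * t) * x 0 + Real.cos (a * t) * x 1,
    Real.cos (b * t) * x 2 - Real.sin (b * t) * x 3,
    Real.sin (b * t) * x 2 + Real.cos (b * t) * x 3]

/-- in suitable affine coordinates, `K` is invariant under all the rotations `turn a b t` -/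
def HasCircle (a b : ℝ) (K : Set (EuclideanSpace ℝ (Fin 4))) : Prop :=
  ∃ g : EuclideanSpace ℝ (Fin 4) ≃ᵃ[ℝ] EuclideanSpace ℝ (Fin 4),
    ∀ t : ℝ, ∀ x ∈ g '' K, turn a b t x ∈ g '' K

/-- the product of a square and a disc -/
def SquareDisc : Set (EuclideanSpace ℝ (Fin 4)) :=
  {x | |x 0| ≤ 1 ∧ |x 1| ≤ 1 ∧ x 2 ^ 2 + x 3 ^ 2 ≤ 1}

theorem many : ∃ (N : ℕ) (ε : ℝ), 0 < ε ∧ ∀ L K : Set (EuclideanSpace ℝ (Fin 4)),
    Body L → MoreSymmetriesThan N L → Body K → Near ε L K → Covered 14 K := by
  obtain ⟨N, ε, hε, h⟩ := Pool.Agent.Zk76.Wt.cov_many_near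
    (E := EuclideanSpace ℝ (Fin 4)) (by simp) Pool.Agent.Zk84.M4.coverWeights14
  refine ⟨N, ε, hε, fun L K ⟨hL, hLc, hLi⟩ hN ⟨hK, hKc, _⟩ ⟨g, v, h1, h2⟩ => ?_⟩
  exact Pool.Agent.Zk76.Wt.cov_transfer g (h L (g '' K) v hL hLc hLi hN
    (hK.affine_image g.toAffineMap)
    (hKc.image (AffineEquiv.continuous_of_finiteDimensional g)) h1 h2)

theorem circle (K : Set (EuclideanSpace ℝ (Fin 4))) (hK : Body K)
    (h : {g : EuclideanSpace ℝ (Fin 4) ≃ᵃ[ℝ] EuclideanSpace ℝ (Fin 4) | g '' K = K}.Infinite) :
    ∃ k : ℝ, 0 ≤ k ∧ k ≤ 1 ∧ HasCircle k 1 K :=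
  Pool.Agent.Zk67.M4.te K hK.1 hK.2.1 hK.2.2 h

theorem twelve (a b : ℝ) (K : Set (EuclideanSpace ℝ (Fin 4))) (h0 : a ≠ 0 ∨ b ≠ 0)
    (h1 : |a| ≠ 2 * |b|) (h2 : |b| ≠ 2 * |a|) (hK : Body K) (hc : HasCircle a b K) :
    Covered 12 K := by
  obtain ⟨g, hg⟩ := hc
  obtain ⟨c1, c2, c3⟩ := hK
  refine Pool.Agent.Zk76.Wt.cov_transfer g (Pool.Agent.Zk76.M4.t12
    Pool.Agent.Zk84.M4.coverNot a b h0 h1 h2 (g '' K) (c1.affine_image g.toAffineMap)
    (c2.image (AffineEquiv.continuous_of_finiteDimensional g)) ?_ hg)
  rw [← Pool.Agent.Zk76.Wt.image_interior_aff]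
  exact c3.image _

theorem circle_squareDisc : HasCircle 0 1 SquareDisc := by
  refine ⟨AffineEquiv.refl ℝ _, fun t x hx => ?_⟩
  have e : ((AffineEquiv.refl ℝ (EuclideanSpace ℝ (Fin 4)) : EuclideanSpace ℝ (Fin 4) →
      EuclideanSpace ℝ (Fin 4)) '' SquareDisc) = SquareDisc := by
    rw [AffineEquiv.coe_refl, Set.image_id]
  rw [e] at hx ⊢
  obtain ⟨h0, h1, h2⟩ := hx
  have a0 : turn 0 1 t x 0 = x 0 := by simp [turn]
  have a1 : turn 0 1 t x 1 = x 1 := by simp [turn]
  have a2 : turn 0 1 t x 2 = Real.cos t * x 2 - Real.sin t * x 3 := by simp [turn]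
  have a3 : turn 0 1 t x 3 = Real.sin t * x 2 + Real.cos t * x 3 := by simp [turn]
  refine ⟨by rw [a0]; exact h0, by rw [a1]; exact h1, ?_⟩
  rw [a2, a3]
  have := Real.sin_sq_add_cos_sq t
  have e2 : (Real.cos t * x 2 - Real.sin t * x 3) ^ 2 + (Real.sin t * x 2 + Real.cos t * x 3) ^ 2 =
      (Real.sin t ^ 2 + Real.cos t ^ 2) * (x 2 ^ 2 + x 3 ^ 2) := by ring
  rw [e2, this, one_mul]
  exact h2

/-- 1. Bodies with many symmetries, and all bodies near them, are covered by 14 translates of the
interior. 2. A body with infinitely many symmetries has a circle of symmetries. 3. A body with a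
circle of symmetries is covered by 12 translates of the interior unless the ratio of the weights is
`2` or `1 / 2`. 4. The number 12 is attained by the product of a square and a disc. -/
theorem result :
    (∃ (N : ℕ) (ε : ℝ), 0 < ε ∧ ∀ L K : Set (EuclideanSpace ℝ (Fin 4)),
      Body L → MoreSymmetriesThan N L → Body K → Near ε L K → Covered 14 K) ∧
    (∀ K : Set (EuclideanSpace ℝ (Fin 4)), Body K →
      {g : EuclideanSpace ℝ (Fin 4) ≃ᵃ[ℝ] EuclideanSpace ℝ (Fin 4) | g '' K = K}.Infinite →
      ∃ k : ℝ, 0 ≤ k ∧ k ≤ 1 ∧ HasCircle k 1 K) ∧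
    (∀ (a b : ℝ) (K : Set (EuclideanSpace ℝ (Fin 4))), (a ≠ 0 ∨ b ≠ 0) → |a| ≠ 2 * |b| →
      |b| ≠ 2 * |a| → Body K → HasCircle a b K → Covered 12 K) ∧
    Body SquareDisc ∧ HasCircle 0 1 SquareDisc ∧ ¬ Covered 11 SquareDisc := by
  refine ⟨many, circle, twelve, ?_⟩
  obtain ⟨s1, s2, s3, -, s5⟩ := Pool.Agent.Zk20.M4.sharp
  refine ⟨⟨s1, s2, s3⟩, circle_squareDisc, ?_⟩
  rintro ⟨T, hT, hc⟩
  have := s5 T hc
  omega

end Pool.Agent.Results.MP_eba1ef_gt.SymmetriesOfFourSpace
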